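import Pool.Agent.W973.SRR.Defs

set_option autoImplicit false

namespace Pool.Agent.W255.SRR

open Pool.Agent.W973.SRR Pool.Agent.NPC

theorem nr_pr (i : ℕ) : nr (pr i) = i := by
  unfold nr pr
  omega

theorem aP_inj {i j : ℕ} (h : aP i = aP j) : i = j := by
  unfold aP at h
  omega

theorem aQ_inj {i j : ℕ} (h : aQ i = aQ j) : i = j := by
  unfold aQ at h
  omega

theorem aP_ne_aQ (i j : ℕ) : aP i ≠ aQ j := by
  unfold aP aQ
  omega

theorem aP_lt {i m : ℕ} (h : i < 3 * m) : aP i < 8 * m := by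
  unfold aP
  omega

theorem aQ_lt {i m : ℕ} (h : i < 3 * m) : aQ i < 8 * m := by
  unfold aQ
  omega

theorem fw3 (h1 : S_BAS) (h2 : S_OCC) (h3 : S_EV) (h4 : S_INV) (h5 : S_ALT) (_h6 : S_TOT)
    (h7 : S_FW2) : S_FW3 := by
  intro ψ P hD hP h0 hall i hi
  obtain ⟨hNO, -, hvv⟩ := h1 ψ
  have hvv := hvv hD
  obtain ⟨hocc, -⟩ := h2 ψ
  obtain ⟨hj, -, hvj, -, hprv, -⟩ := hocc i hi
  obtain ⟨-, -, hev⟩ := h3 ψ hD
  set j := nxt ψ i with hjdef
  obtain ⟨-, hpri, -, hvpi, -⟩ := hvv i hi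
  obtain ⟨-, hprj, -, hvpj, -⟩ := hvv j hj
  -- partners
  have g1 : mt ψ (some (vv ψ i)) (aQ i) = cnQ ψ i := by
    rw [(hev i hi _).2, if_pos rfl]
  have f1 : mt ψ none (aQ i) = aP i := by
    rw [(hev i hi _).2, if_neg (by simp), if_neg (by simp)]
  have g2 : mt ψ (some (vv ψ i)) (aP (pr i)) = cnP ψ (pr i) := by
    rw [(hev (pr i) hpri _).1, if_neg, if_pos]
    · rw [nr_pr]
    · intro h
      exact hvpi (Option.some.inj h).symm
  have f2 : mt ψ none (aP (pr i)) = aQ (pr i) := by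
    rw [(hev (pr i) hpri _).1, if_neg (by simp), if_neg (by simp)]
  have f3 : mt ψ none (aQ j) = aP j := by
    rw [(hev j hj _).2, if_neg (by simp), if_neg (by simp)]
  have f4 : mt ψ none (aP (pr j)) = aQ (pr j) := by
    rw [(hev (pr j) hprj _).1, if_neg (by simp), if_neg (by simp)]
  have g3 : mt ψ (some (vv ψ i)) (aQ j) = cnQ ψ j := by
    rw [(hev j hj _).2, if_pos (by rw [hvj])]
  have g4 : mt ψ (some (vv ψ i)) (aP (pr j)) = cnP ψ (pr j) := by
    rw [(hev (pr j) hprj _).1, if_neg, if_pos]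
    · rw [nr_pr, hvj]
    · intro h
      rw [← hvj] at h
      exact hvpj (Option.some.inj h).symm
  obtain ⟨hTi1, hTi2⟩ := h7 ψ P hD hP h0 hall i hi
  obtain ⟨hTj1, hTj2⟩ := h7 ψ P hD hP h0 hall j hj
  have halt := h5 (8 * ψ.length) P (mt ψ none) (mt ψ (some (vv ψ i))) hP (h4 ψ hD none)
    (h4 ψ hD (some (vv ψ i))) h0 (hall i hi)
  -- up of the outgoing terminal
  have hgot : mt ψ (some (vv ψ i)) (ot ψ i) = inn ψ j := by
    unfold ot
    by_cases hs : (lit ψ i).1 = true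
    · rw [if_pos hs, g1]
      unfold cnQ
      rw [if_pos hs]
    · rw [if_neg hs, g2]
      unfold cnP
      rw [nr_pr, if_neg hs]
  have hot_lt : ot ψ i < 8 * ψ.length := by
    unfold ot
    split_ifs
    · exact aQ_lt (hNO ▸ hi)
    · exact aP_lt (hNO ▸ hpri)
  have hne : mt ψ none (ot ψ i) ≠ mt ψ (some (vv ψ i)) (ot ψ i) := by
    rw [hgot]
    unfold ot inn
    by_cases hs : (lit ψ i).1 = true
    · rw [if_pos hs, f1]
      by_cases hs' : (lit ψ j).1 = true
      · rw [if_pos hs']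
        intro h
        have := aP_inj h
        rw [← this] at hvpj
        exact hvpj hvj.symm
      · rw [if_neg hs']
        exact aP_ne_aQ _ _
    · rw [if_neg hs, f2]
      by_cases hs' : (lit ψ j).1 = true
      · rw [if_pos hs']
        exact (aP_ne_aQ _ _).symm
      · rw [if_neg hs']
        intro h
        have := aQ_inj h
        rw [this] at hvpi
        exact hvpi hvj
  have key := halt (ot ψ i) hot_lt hne
  have hback : mt ψ (some (vv ψ i)) (inn ψ j) = ot ψ i := by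
    rw [← hgot]
    exact (h4 ψ hD (some (vv ψ i))).inv _ hot_lt
  rw [hgot] at key
  have upa : Pf P (ot ψ i) (inn ψ j) (mt ψ none (ot ψ i)) ↔
      (Pf P (aV (i / 3)) (aP i) (aW (i / 3)) ↔ (lit ψ i).1 = true) := by
    rw [← hgot]
    unfold ot
    by_cases hs : (lit ψ i).1 = true
    · rw [if_pos hs, g1, f1, hTi1]
      simp [hs]
    · rw [if_neg hs, g2, f2, hTi2]
      simp [hs]
  have upb : Pf P (inn ψ j) (ot ψ i) (mt ψ none (inn ψ j)) ↔
      ¬ (Pf P (aV (j / 3)) (aP j) (aW (j / 3)) ↔ (lit ψ j).1 = true) := by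
    rw [← hback]
    unfold inn
    by_cases hs : (lit ψ j).1 = true
    · rw [if_pos hs, g4, f4, hTj2]
      simp [hs]
    · rw [if_neg hs, g3, f3, hTj1]
      simp [hs]
  rw [upa, upb, not_not] at key
  exact key

end Pool.Agent.W255.SRR
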